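import Mathlib

/-!
# The golden partition conjecture: basic counting

`Golden α` is the conclusion of the golden partition conjecture for the finite poset `α`.
-/

namespace Pool.Agent.Helper51.GPC

/-- The finite poset `α` satisfies the golden partition conjecture: there is an incomparable pair
`a, b` such that for each outcome `u < v` of its comparison there is a second pair `c ≠ d` such that
for each outcome `w < z` of the second comparison, the number of linear extensions of `α` is at
least the number of those with `u < v` plus the number of those with `u < v` and `w < z`. Linear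
extensions are the strictly monotone bijections `α ≃ Fin (card α)`. -/
def Golden (α : Type*) [Fintype α] [PartialOrder α] : Prop :=
  ∃ a b : α, ¬ a ≤ b ∧ ¬ b ≤ a ∧
    ∀ u v : α, ((u = a ∧ v = b) ∨ (u = b ∧ v = a)) →
      ∃ c d : α, c ≠ d ∧
        ∀ w z : α, ((w = c ∧ z = d) ∨ (w = d ∧ z = c)) →
          {f : α ≃ Fin (Fintype.card α) |
              StrictMono (f : α → Fin (Fintype.card α)) ∧ f u < f v}.ncard
            + {f : α ≃ Fin (Fintype.card α) |
              StrictMono (f : α → Fin (Fintype.card α)) ∧ f u < f v ∧ f w < f z}.ncard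
            ≤ {f : α ≃ Fin (Fintype.card α) |
              StrictMono (f : α → Fin (Fintype.card α))}.ncard

variable {α : Type*} [Fintype α] [PartialOrder α]

/-- The number of linear extensions of `α` satisfying `p`. -/
noncomputable def cnt (p : (α ≃ Fin (Fintype.card α)) → Prop) : ℕ :=
  {f : α ≃ Fin (Fintype.card α) | StrictMono (f : α → Fin (Fintype.card α)) ∧ p f}.ncard

/-- The number of linear extensions with `x` before `y`. -/
noncomputable def lt (x y : α) : ℕ := cnt fun f => f x < f y

variable (α) in
/-- The number of linear extensions. -/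
noncomputable def total : ℕ := cnt (α := α) fun _ => True

theorem cnt_mono {p q : (α ≃ Fin (Fintype.card α)) → Prop}
    (h : ∀ f : α ≃ Fin (Fintype.card α), StrictMono f → p f → q f) : cnt p ≤ cnt q :=
  Set.ncard_le_ncard (fun f hf => ⟨hf.1, h f hf.1 hf.2⟩) (Set.toFinite _)

theorem cnt_congr {p q : (α ≃ Fin (Fintype.card α)) → Prop}
    (h : ∀ f : α ≃ Fin (Fintype.card α), StrictMono f → (p f ↔ q f)) : cnt p = cnt q :=
  le_antisymm (cnt_mono fun f hf => (h f hf).1) (cnt_mono fun f hf => (h f hf).2)

theorem cnt_split (p q : (α ≃ Fin (Fintype.card α)) → Prop) :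
    cnt (fun f => p f ∧ q f) + cnt (fun f => p f ∧ ¬ q f) = cnt p := by
  unfold cnt
  rw [← Set.ncard_union_eq]
  · congr 1
    ext f
    simp only [Set.mem_union, Set.mem_ofPred_eq]
    tauto
  · rw [Set.disjoint_left]
    rintro f ⟨_, _, h⟩ ⟨_, _, h'⟩
    exact h' h

theorem cnt_and_lt (p : (α ≃ Fin (Fintype.card α)) → Prop) {x y : α} (h : x ≠ y) :
    cnt (fun f => p f ∧ f x < f y) + cnt (fun f => p f ∧ f y < f x) = cnt p := by
  rw [← cnt_split p fun f => f x < f y]
  congr 1
  refine cnt_congr fun f _ => ?_
  have : f x ≠ f y := fun e => h (f.injective e)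
  have h2 : f y < f x ↔ ¬ f x < f y := by
    rw [not_lt]
    exact ⟨le_of_lt, fun h' => lt_of_le_of_ne h' this.symm⟩
  rw [h2]

theorem lt_add_lt {x y : α} (h : x ≠ y) : lt x y + lt y x = total α := by
  have := cnt_and_lt (fun _ : α ≃ Fin (Fintype.card α) => True) h
  simp only [true_and] at this
  exact this

theorem cnt_le_total (p : (α ≃ Fin (Fintype.card α)) → Prop) : cnt p ≤ total α :=
  cnt_mono fun _ _ _ => trivial

theorem total_eq : total α =
    {f : α ≃ Fin (Fintype.card α) | StrictMono (f : α → Fin (Fintype.card α))}.ncard := by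
  unfold total cnt
  simp only [and_true]

theorem exists_linext : ∃ f : α ≃ Fin (Fintype.card α), StrictMono f := by
  classical
  let t : α ≃ LinearExtension α := Equiv.refl α
  let _ : Fintype (LinearExtension α) := Fintype.ofEquiv α t
  have hc : Fintype.card (LinearExtension α) = Fintype.card α := (Fintype.card_congr t).symm
  let e := Fintype.orderIsoFinOfCardEq (LinearExtension α) hc
  refine ⟨t.trans e.symm.toEquiv, ?_⟩
  intro a b hab
  have h1 : t a ≤ t b := (toLinearExtension (α := α)).monotone hab.le
  have h2 : t a ≠ t b := fun h => hab.ne (t.injective h)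
  exact e.symm.strictMono (lt_of_le_of_ne h1 h2)

theorem total_pos : 0 < total α := by
  obtain ⟨f, hf⟩ := exists_linext (α := α)
  unfold total cnt
  rw [Set.ncard_pos (Set.toFinite _)]
  exact ⟨f, hf, trivial⟩

theorem lt_self (x : α) : lt x x = 0 := by
  unfold lt cnt
  simp

theorem lt_of_lt {x y : α} (h : x < y) : lt x y = total α :=
  cnt_congr fun _ hf => ⟨fun _ => trivial, fun _ => hf h⟩

theorem lt_of_gt {x y : α} (h : y < x) : lt x y = 0 := by
  have h1 := lt_add_lt h.ne
  rw [lt_of_lt h] at h1
  omega

/-- `x` is before `y` in at least half of the linear extensions only if `x, y` are distinct. -/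
theorem ne_of_half {x y : α} (h : total α ≤ 2 * lt x y) : x ≠ y := by
  rintro rfl
  rw [lt_self] at h
  have := total_pos (α := α)
  omega

/-- Basic criterion. -/
theorem golden_of {a b c d : α} (hab : ¬ a ≤ b) (hba : ¬ b ≤ a) (hcd : c ≠ d)
    (h0 : 2 * lt b a ≤ total α)
    (h1 : lt a b + cnt (fun f => f a < f b ∧ f c < f d) ≤ total α)
    (h2 : lt a b + cnt (fun f => f a < f b ∧ f d < f c) ≤ total α) : Golden α := by
  refine ⟨a, b, hab, hba, ?_⟩
  rintro u v (⟨rfl, rfl⟩ | ⟨rfl, rfl⟩)
  · refine ⟨c, d, hcd, ?_⟩
    rintro w z (⟨rfl, rfl⟩ | ⟨rfl, rfl⟩)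
    · rw [← total_eq]
      exact h1
    · rw [← total_eq]
      exact h2
  · refine ⟨c, d, hcd, ?_⟩
    intro w z _
    rw [← total_eq]
    have h3 : cnt (fun f => f u < f v ∧ f w < f z) ≤ lt u v := cnt_mono fun f _ h => h.1
    have h4 : lt u v + cnt (fun f => f u < f v ∧ f w < f z) ≤ total α := by omega
    exact h4

/-- If `x` is before `y` in exactly half of the linear extensions. -/
theorem golden_of_half {x y : α} (h : 2 * lt x y = total α) : Golden α := by
  have hne : x ≠ y := ne_of_half h.ge
  have h1 := lt_add_lt hne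
  have hT := total_pos (α := α)
  have hxy : ¬ x ≤ y := fun h' => by
    have := lt_of_lt (lt_of_le_of_ne h' hne)
    omega
  have hyx : ¬ y ≤ x := fun h' => by
    have := lt_of_gt (lt_of_le_of_ne h' hne.symm)
    omega
  refine golden_of hxy hyx hne (by omega) ?_ ?_
  · have : cnt (fun f => f x < f y ∧ f x < f y) ≤ lt x y := cnt_mono fun f _ h => h.1
    omega
  · have : cnt (fun f => f x < f y ∧ f y < f x) ≤ lt x y := cnt_mono fun f _ h => h.1
    omega

end Pool.Agent.Helper51.GPC
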