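import Pool.Agent.Helper51.GPC.GoodPair

/-!
# Duality
-/

namespace Pool.Agent.Helper51.GPC

variable {α : Type*} [Fintype α] [PartialOrder α]

/-- Reversing bijections. -/
def rev (f : α ≃ Fin (Fintype.card α)) : αᵒᵈ ≃ Fin (Fintype.card αᵒᵈ) :=
  OrderDual.ofDual.trans (f.trans Fin.revPerm)

theorem rev_lt (f : α ≃ Fin (Fintype.card α)) (x y : αᵒᵈ) :
    rev f x < rev f y ↔ f (OrderDual.ofDual y) < f (OrderDual.ofDual x) := by
  show Fin.rev (f (OrderDual.ofDual x)) < Fin.rev (f (OrderDual.ofDual y)) ↔ _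
  exact Fin.rev_lt_rev

theorem rev_strictMono (f : α ≃ Fin (Fintype.card α)) :
    StrictMono (rev f) ↔ StrictMono (f : α → Fin (Fintype.card α)) := by
  constructor
  · intro h x y hxy
    have : (OrderDual.toDual y) < (OrderDual.toDual x) := hxy
    exact (rev_lt f _ _).1 (h this)
  · intro h x y hxy
    rw [rev_lt]
    exact h hxy

theorem cnt_dual (p : (αᵒᵈ ≃ Fin (Fintype.card αᵒᵈ)) → Prop) :
    cnt p = cnt (fun f : α ≃ Fin (Fintype.card α) => p (rev f)) := by
  unfold cnt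
  have hinj : Function.Injective (rev : (α ≃ Fin (Fintype.card α)) → _) := by
    intro f g h
    ext x : 1
    have h1 := DFunLike.congr_fun h (OrderDual.toDual x)
    have h2 : Fin.rev (f x) = Fin.rev (g x) := h1
    exact Fin.rev_injective h2
  rw [← Set.ncard_image_of_injective _ hinj]
  congr 1
  ext f
  constructor
  · rintro ⟨hf, hp⟩
    have hsurj : ∃ g : α ≃ Fin (Fintype.card α), rev g = f := by
      refine ⟨OrderDual.toDual.trans (f.trans Fin.revPerm), ?_⟩
      ext x : 1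
      show Fin.rev (Fin.rev (f x)) = f x
      exact Fin.rev_rev _
    obtain ⟨g, rfl⟩ := hsurj
    exact ⟨g, ⟨(rev_strictMono g).1 hf, hp⟩, rfl⟩
  · rintro ⟨g, ⟨hg, hp⟩, rfl⟩
    exact ⟨(rev_strictMono g).2 hg, hp⟩

theorem lt_dual (x y : αᵒᵈ) : lt x y = lt (OrderDual.ofDual y) (OrderDual.ofDual x) := by
  unfold lt
  rw [cnt_dual]
  exact cnt_congr fun f _ => rev_lt f x y

theorem total_dual : total αᵒᵈ = total α := by
  unfold total
  rw [cnt_dual]

theorem golden_of_dual (h : Golden αᵒᵈ) : Golden α := by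
  obtain ⟨a, b, hab, hba, H⟩ := h
  refine ⟨OrderDual.ofDual a, OrderDual.ofDual b, fun h => hba h, fun h => hab h, ?_⟩
  intro u v huv
  have huv' : (OrderDual.toDual v = a ∧ OrderDual.toDual u = b) ∨
      (OrderDual.toDual v = b ∧ OrderDual.toDual u = a) := by
    rcases huv with ⟨rfl, rfl⟩ | ⟨rfl, rfl⟩
    · exact Or.inr ⟨rfl, rfl⟩
    · exact Or.inl ⟨rfl, rfl⟩
  obtain ⟨c, d, hcd, K⟩ := H _ _ huv'
  refine ⟨OrderDual.ofDual c, OrderDual.ofDual d, fun h => hcd h, ?_⟩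
  intro w z hwz
  have hwz' : (OrderDual.toDual z = c ∧ OrderDual.toDual w = d) ∨
      (OrderDual.toDual z = d ∧ OrderDual.toDual w = c) := by
    rcases hwz with ⟨rfl, rfl⟩ | ⟨rfl, rfl⟩
    · exact Or.inr ⟨rfl, rfl⟩
    · exact Or.inl ⟨rfl, rfl⟩
  have h1 := K _ _ hwz'
  have e1 : cnt (fun f : αᵒᵈ ≃ Fin (Fintype.card αᵒᵈ) =>
      f (OrderDual.toDual v) < f (OrderDual.toDual u)) =
      cnt (fun f : α ≃ Fin (Fintype.card α) => f u < f v) := by
    rw [cnt_dual]
    exact cnt_congr fun f _ => rev_lt f _ _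
  have e2 : cnt (fun f : αᵒᵈ ≃ Fin (Fintype.card αᵒᵈ) =>
      f (OrderDual.toDual v) < f (OrderDual.toDual u) ∧
      f (OrderDual.toDual z) < f (OrderDual.toDual w)) =
      cnt (fun f : α ≃ Fin (Fintype.card α) => f u < f v ∧ f w < f z) := by
    rw [cnt_dual]
    exact cnt_congr fun f _ => and_congr (rev_lt f _ _) (rev_lt f _ _)
  have e3 := total_dual (α := α)
  rw [total_eq, total_eq] at e3
  unfold cnt at e1 e2
  rw [e1, e2, e3] at h1
  exact h1

/-- Good pairs, dual form. -/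
theorem golden_of_good_dual {a b : α} (hab : ¬ a ≤ b) (hba : ¬ b ≤ a) (hD : ∀ e, e < a → e < b)
    (hC : ∀ e e', b < e → ¬ a < e → b < e' → ¬ a < e' → e ≤ e' ∨ e' ≤ e)
    (hP : 2 * lt a b ≤ total α) : Golden α := by
  refine golden_of_dual (golden_of_good' (α := αᵒᵈ) (a := OrderDual.toDual a)
    (b := OrderDual.toDual b) (fun h => hba h) (fun h => hab h) (fun e he => hD e he) ?_ ?_)
  · intro e e' h1 h2 h3 h4
    exact (hC e e' h1 h2 h3 h4).symm
  · rw [lt_dual, total_dual]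
    exact hP

/-- Pairs with the same strict lower bounds whose sets of strict upper bounds differ by chains. -/
theorem golden_of_same_down {a b : α} (hab : a ≠ b) (hD : ∀ e, e < a ↔ e < b)
    (hC : ∀ e e', b < e → ¬ a < e → b < e' → ¬ a < e' → e ≤ e' ∨ e' ≤ e)
    (hC' : ∀ e e', a < e → ¬ b < e → a < e' → ¬ b < e' → e ≤ e' ∨ e' ≤ e) : Golden α :=
  golden_of_dual (golden_of_same_up (α := αᵒᵈ) (a := OrderDual.toDual a)
    (b := OrderDual.toDual b) (fun h => hab h) (fun e => hD e)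
    (fun e e' h1 h2 h3 h4 => (hC e e' h1 h2 h3 h4).symm)
    (fun e e' h1 h2 h3 h4 => (hC' e e' h1 h2 h3 h4).symm))

end Pool.Agent.Helper51.GPC
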