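import Pool.Agent.Helper51.GPC.Basic

/-!
# The golden partition conjecture for posets with a good pair
-/

namespace Pool.Agent.Helper51.GPC

variable {α : Type*} [Fintype α] [PartialOrder α]

theorem three_way {a u v : α} (huv : v < u) (hau : a ≠ u) (hav : a ≠ v) :
    lt a v + cnt (fun f : α ≃ Fin (Fintype.card α) => f v < f a ∧ f a < f u) + lt u a
      = total α := by
  have h1 := lt_add_lt hav
  have h2 := cnt_and_lt (fun f : α ≃ Fin (Fintype.card α) => f v < f a) hau
  have h3 : cnt (fun f : α ≃ Fin (Fintype.card α) => f v < f a ∧ f u < f a) = lt u a :=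
    cnt_congr fun f hf => ⟨fun h => h.2, fun h => ⟨(hf huv).trans h, h⟩⟩
  have h4 : cnt (fun f : α ≃ Fin (Fintype.card α) => f v < f a) = lt v a := rfl
  omega

/-- Lemma T. -/
theorem golden_of_three {a u v : α} (huv : v < u) (hau : ¬ a ≤ u) (hua : ¬ u ≤ a)
    (hav : ¬ a ≤ v) (hva : ¬ v ≤ a) (hs : 2 * lt u a ≤ total α) (hp : 2 * lt a v ≤ total α)
    (hr : cnt (fun f : α ≃ Fin (Fintype.card α) => f v < f a ∧ f a < f u) ≤ lt u a) :
    Golden α := by
  have nau : a ≠ u := fun h => hau h.le
  have nav : a ≠ v := fun h => hav h.le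
  have h3 := three_way huv nau nav
  have h1 := lt_add_lt nav
  have h2 := lt_add_lt nau
  rcases le_total (lt a v) (lt u a) with hc | hc
  · refine golden_of (a := a) (b := u) (c := v) (d := a) hau hua nav.symm hs ?_ ?_
    · have : cnt (fun f : α ≃ Fin (Fintype.card α) => f a < f u ∧ f v < f a) =
          cnt (fun f : α ≃ Fin (Fintype.card α) => f v < f a ∧ f a < f u) :=
        cnt_congr fun f _ => and_comm
      omega
    · have : cnt (fun f : α ≃ Fin (Fintype.card α) => f a < f u ∧ f a < f v) ≤ lt a v :=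
        cnt_mono fun f _ h => h.2
      omega
  · refine golden_of (a := v) (b := a) (c := a) (d := u) hva hav nau hp ?_ ?_
    · omega
    · have : cnt (fun f : α ≃ Fin (Fintype.card α) => f v < f a ∧ f u < f a) ≤ lt u a :=
        cnt_mono fun f _ h => h.2
      omega

/-- Swapping `a` and `u` maps linear extensions with `a` before `u` to linear extensions with `u`
before `a`, provided the given conditions hold. -/
theorem swap_le {a u : α} (p : (α ≃ Fin (Fintype.card α)) → Prop)
    (hau : ¬ a ≤ u) (hU : ∀ e, a < e → u < e)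
    (hD : ∀ f : α ≃ Fin (Fintype.card α), StrictMono f → p f → f a < f u →
      ∀ e, e < u → f e < f a) :
    cnt (fun f : α ≃ Fin (Fintype.card α) => p f ∧ f a < f u) ≤ lt u a := by
  classical
  refine Set.ncard_le_ncard_of_injOn (fun f => (Equiv.swap a u).trans f) ?_ ?_ (Set.toFinite _)
  · rintro f ⟨hf, hp, h⟩
    have hD' := hD f hf hp h
    refine ⟨?_, ?_⟩
    · intro x y hxy
      show f (Equiv.swap a u x) < f (Equiv.swap a u y)
      by_cases hxa : x = a
      · subst hxa
        rw [Equiv.swap_apply_left]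
        have hy1 : y ≠ x := hxy.ne'
        have hy2 : y ≠ u := fun e => hau (e ▸ hxy.le)
        rw [Equiv.swap_apply_of_ne_of_ne hy1 hy2]
        exact hf (hU y hxy)
      by_cases hxu : x = u
      · subst hxu
        rw [Equiv.swap_apply_right]
        by_cases hya : y = a
        · subst hya
          rw [Equiv.swap_apply_left]
          exact h
        · have hy2 : y ≠ x := hxy.ne'
          rw [Equiv.swap_apply_of_ne_of_ne hya hy2]
          exact h.trans (hf hxy)
      rw [Equiv.swap_apply_of_ne_of_ne hxa hxu]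
      by_cases hya : y = a
      · subst hya
        rw [Equiv.swap_apply_left]
        exact (hf hxy).trans h
      by_cases hyu : y = u
      · subst hyu
        rw [Equiv.swap_apply_right]
        exact hD' x hxy
      rw [Equiv.swap_apply_of_ne_of_ne hya hyu]
      exact hf hxy
    · show f (Equiv.swap a u u) < f (Equiv.swap a u a)
      rw [Equiv.swap_apply_right, Equiv.swap_apply_left]
      exact h
  · intro f _ g _ h
    ext x : 1
    have := DFunLike.congr_fun h (Equiv.swap a u x)
    simpa using this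

/-- Good pairs, first form. -/
theorem golden_of_good {a b : α} (hab : ¬ a ≤ b) (hba : ¬ b ≤ a) (hU : ∀ e, a < e → b < e)
    (hC : ∀ e e', e ≤ b → ¬ e ≤ a → e' ≤ b → ¬ e' ≤ a → e ≤ e' ∨ e' ≤ e)
    (hP : 2 * lt b a ≤ total α) : Golden α := by
  classical
  -- the least `u` in the chain with `2 * lt u a ≤ total`
  obtain ⟨u, ⟨hub, hua, hu⟩, hmin⟩ : ∃ u : α, (u ≤ b ∧ ¬ u ≤ a ∧ 2 * lt u a ≤ total α) ∧
      ∀ e, e ≤ b ∧ ¬ e ≤ a ∧ 2 * lt e a ≤ total α → ¬ e < u := by
    obtain ⟨u, hu⟩ := Set.Finite.exists_minimal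
      (s := {e : α | e ≤ b ∧ ¬ e ≤ a ∧ 2 * lt e a ≤ total α}) (Set.toFinite _)
      ⟨b, le_rfl, hba, hP⟩
    refine ⟨u, hu.1, fun e he h => ?_⟩
    exact absurd (hu.2 he h.le) (not_le_of_gt h)
  have hau : ¬ a ≤ u := fun h => hab (h.trans hub)
  have nau : a ≠ u := fun h => hau h.le
  have hUu : ∀ e, a < e → u < e := fun e he => lt_of_le_of_lt hub (hU e he)
  have hsum := lt_add_lt nau
  by_cases hex : ∃ e, e < u ∧ ¬ e ≤ a
  · -- the predecessor
    obtain ⟨v, ⟨hvu, hva⟩, hmax⟩ : ∃ v : α, (v < u ∧ ¬ v ≤ a) ∧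
        ∀ e, e < u ∧ ¬ e ≤ a → ¬ v < e := by
      obtain ⟨v, hv⟩ := Set.Finite.exists_maximal
        (s := {e : α | e < u ∧ ¬ e ≤ a}) (Set.toFinite _) hex
      refine ⟨v, hv.1, fun e he h => ?_⟩
      exact absurd (hv.2 he h.le) (not_le_of_gt h)
    have hav : ¬ a ≤ v := fun h => hau (h.trans hvu.le)
    have nav : a ≠ v := fun h => hav h.le
    have hvs : total α < 2 * lt v a := by
      by_contra h
      exact hmin v ⟨hvu.le.trans hub, hva, not_lt.1 h⟩ hvu
    have hsv := lt_add_lt nav
    refine golden_of_three hvu hau hua hav hva hu (by omega) ?_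
    refine swap_le (fun f => f v < f a) hau hUu ?_
    intro f hf hvf _ e he
    by_cases hea : e ≤ a
    · exact hf (lt_of_le_of_ne hea fun h => hau (h ▸ he.le))
    · have hev : e ≤ v := by
        rcases hC e v (he.le.trans hub) hea (hvu.le.trans hub) hva with h | h
        · exact h
        · rcases h.lt_or_eq with h' | h'
          · exact absurd h' (hmax e ⟨he, hea⟩)
          · exact h'.ge
      exact lt_of_le_of_lt (hf.monotone hev) hvf
  · have h1 : cnt (fun f : α ≃ Fin (Fintype.card α) => True ∧ f a < f u) ≤ lt u a := by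
      refine swap_le (fun _ => True) hau hUu ?_
      intro f hf _ _ e he
      have hea : e ≤ a := by
        by_contra h
        exact hex ⟨e, he, h⟩
      exact hf (lt_of_le_of_ne hea fun h => hau (h ▸ he.le))
    have h2 : cnt (fun f : α ≃ Fin (Fintype.card α) => True ∧ f a < f u) = lt a u :=
      cnt_congr fun f _ => ⟨fun h => h.2, fun h => ⟨trivial, h⟩⟩
    exact golden_of_half (x := u) (y := a) (by omega)

omit [Fintype α] in
theorem chain_le {x y : α}
    (h : ∀ e e', e < y → ¬ e < x → e' < y → ¬ e' < x → e ≤ e' ∨ e' ≤ e) :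
    ∀ e e', e ≤ y → ¬ e ≤ x → e' ≤ y → ¬ e' ≤ x → e ≤ e' ∨ e' ≤ e := by
  intro e e' he hx he' hx'
  rcases he.lt_or_eq with h1 | h1
  · rcases he'.lt_or_eq with h2 | h2
    · exact h e e' h1 (fun h => hx h.le) h2 (fun h => hx' h.le)
    · exact Or.inl (h2 ▸ he)
  · exact Or.inr (h1 ▸ he')

/-- Good pairs, second form. -/
theorem golden_of_good' {a b : α} (hab : ¬ a ≤ b) (hba : ¬ b ≤ a) (hU : ∀ e, a < e → b < e)
    (hC : ∀ e e', e < b → ¬ e < a → e' < b → ¬ e' < a → e ≤ e' ∨ e' ≤ e)
    (hP : 2 * lt b a ≤ total α) : Golden α :=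
  golden_of_good hab hba hU (chain_le hC) hP

/-- Pairs with the same strict upper bounds whose sets of strict lower bounds differ by chains. -/
theorem golden_of_same_up {a b : α} (hab : a ≠ b) (hU : ∀ e, a < e ↔ b < e)
    (hC : ∀ e e', e < b → ¬ e < a → e' < b → ¬ e' < a → e ≤ e' ∨ e' ≤ e)
    (hC' : ∀ e e', e < a → ¬ e < b → e' < a → ¬ e' < b → e ≤ e' ∨ e' ≤ e) : Golden α := by
  have h1 : ¬ a ≤ b := fun h => lt_irrefl b ((hU b).1 (lt_of_le_of_ne h hab))
  have h2 : ¬ b ≤ a := fun h => lt_irrefl a ((hU a).2 (lt_of_le_of_ne h hab.symm))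
  have hsum := lt_add_lt hab
  rcases le_total (2 * lt b a) (total α) with h | h
  · exact golden_of_good' h1 h2 (fun e he => (hU e).1 he) hC h
  · exact golden_of_good' h2 h1 (fun e he => (hU e).2 he) hC' (by omega)

end Pool.Agent.Helper51.GPC
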