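import Pool.Agent.Helper51.GPC.Basic

/-!
# The golden partition conjecture and the majority relation
-/

namespace Pool.Agent.Helper51.GPC

variable {α : Type*} [Fintype α] [PartialOrder α]

theorem golden_of_cycle_aux {x y z : α} (hxy : total α ≤ 2 * lt x y)
    (hyz : total α ≤ 2 * lt y z) (hzx : total α ≤ 2 * lt z x) (h1 : lt y z ≤ lt x y)
    (h2 : lt y z ≤ lt z x) : Golden α := by
  have nxy := ne_of_half hxy
  have nyz := ne_of_half hyz
  have nzx := ne_of_half hzx
  have exy := lt_add_lt nxy
  have eyz := lt_add_lt nyz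
  have ezx := lt_add_lt nzx
  have hT := total_pos (α := α)
  refine golden_of (a := y) (b := z) (c := x) (d := y) ?_ ?_ nxy (by omega) ?_ ?_
  · intro h
    have h3 := lt_of_lt (lt_of_le_of_ne h nyz)
    have h4 := cnt_and_lt (fun f : α ≃ Fin (Fintype.card α) => f x < f y) nyz
    have h5 : cnt (fun f : α ≃ Fin (Fintype.card α) => f x < f y ∧ f y < f z) ≤ lt x z :=
      cnt_mono fun f _ h => h.1.trans h.2
    have h6 : cnt (fun f : α ≃ Fin (Fintype.card α) => f x < f y ∧ f z < f y) ≤ lt z y :=
      cnt_mono fun f _ h => h.2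
    have h7 : cnt (fun f : α ≃ Fin (Fintype.card α) => f x < f y) = lt x y := rfl
    omega
  · intro h
    have := lt_of_gt (lt_of_le_of_ne h nyz.symm)
    omega
  · have : cnt (fun f : α ≃ Fin (Fintype.card α) => f y < f z ∧ f x < f y) ≤ lt x z :=
      cnt_mono fun f _ h => h.2.trans h.1
    omega
  · have : cnt (fun f : α ≃ Fin (Fintype.card α) => f y < f z ∧ f y < f x) ≤ lt y x :=
      cnt_mono fun f _ h => h.2
    omega

/-- If the relation of being before in at least half of the linear extensions has a cycle of length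
three, then the golden partition conjecture holds. -/
theorem golden_of_cycle {x y z : α} (hxy : total α ≤ 2 * lt x y)
    (hyz : total α ≤ 2 * lt y z) (hzx : total α ≤ 2 * lt z x) : Golden α := by
  rcases le_total (lt x y) (lt y z) with h1 | h1
  · rcases le_total (lt x y) (lt z x) with h2 | h2
    · exact golden_of_cycle_aux hzx hxy hyz h2 h1
    · exact golden_of_cycle_aux hyz hzx hxy (h2.trans h1) h2
  · rcases le_total (lt y z) (lt z x) with h2 | h2
    · exact golden_of_cycle_aux hxy hyz hzx h1 h2
    · exact golden_of_cycle_aux hyz hzx hxy h2 (h2.trans h1)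

/-- The majority relation. -/
def Maj (x y : α) : Prop := total α < 2 * lt x y

theorem maj_or (hG : ¬ Golden α) {x y : α} (h : x ≠ y) : Maj x y ∨ Maj y x := by
  have h1 := lt_add_lt h
  have h2 : 2 * lt x y ≠ total α := fun h' => hG (golden_of_half h')
  unfold Maj
  omega

theorem maj_irrefl (x : α) : ¬ Maj x x := by
  unfold Maj
  rw [lt_self]
  omega

theorem maj_asymm {x y : α} (h : Maj x y) : ¬ Maj y x := by
  intro h'
  have hne : x ≠ y := fun e => maj_irrefl x (by rw [← e] at h; exact h)
  have h1 := lt_add_lt hne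
  unfold Maj at h h'
  omega

theorem maj_trans (hG : ¬ Golden α) {x y z : α} (h1 : Maj x y) (h2 : Maj y z) : Maj x z := by
  have hne : x ≠ z := fun e => maj_asymm h1 (by rw [← e] at h2; exact h2)
  rcases maj_or hG hne with h | h
  · exact h
  · exact (hG (golden_of_cycle h1.le h2.le h.le)).elim

theorem maj_of_lt {x y : α} (h : x < y) : Maj x y := by
  unfold Maj
  rw [lt_of_lt h]
  have := total_pos (α := α)
  omega

theorem lt_map_le (σ : α ≃o α) (x y : α) : lt (σ x) (σ y) ≤ lt x y := by
  refine Set.ncard_le_ncard_of_injOn (fun f => σ.toEquiv.trans f) ?_ ?_ (Set.toFinite _)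
  · rintro f ⟨hf, h⟩
    exact ⟨hf.comp σ.strictMono, h⟩
  · intro f _ g _ h
    ext a : 1
    have := DFunLike.congr_fun h (σ.symm a)
    simpa using this

theorem lt_map (σ : α ≃o α) (x y : α) : lt (σ x) (σ y) = lt x y := by
  refine le_antisymm (lt_map_le σ x y) ?_
  have := lt_map_le σ.symm (σ x) (σ y)
  simpa using this

theorem maj_map (σ : α ≃o α) (x y : α) : Maj (σ x) (σ y) ↔ Maj x y := by
  unfold Maj
  rw [lt_map]

/-- A finite poset with a nontrivial automorphism satisfies the golden partition conjecture. -/
theorem golden_of_automorphism (σ : α ≃o α) {x : α} (hx : σ x ≠ x) : Golden α := by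
  classical
  by_contra hG
  have key : ∀ a b : α, Maj a b →
      (Finset.univ.filter fun y => Maj y a).card < (Finset.univ.filter fun y => Maj y b).card := by
    intro a b hab
    refine Finset.card_lt_card ⟨?_, ?_⟩
    · intro y hy
      rw [Finset.mem_filter] at hy ⊢
      exact ⟨hy.1, maj_trans hG hy.2 hab⟩
    · intro h
      have : a ∈ Finset.univ.filter fun y => Maj y a :=
        h (Finset.mem_filter.2 ⟨Finset.mem_univ _, hab⟩)
      exact maj_irrefl a (Finset.mem_filter.1 this).2
  have key2 : ∀ a : α,
      (Finset.univ.filter fun y => Maj y (σ a)).card = (Finset.univ.filter fun y => Maj y a).card := by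
    intro a
    symm
    refine Finset.card_bij (fun y _ => σ y) ?_ ?_ ?_
    · intro y hy
      rw [Finset.mem_filter] at hy ⊢
      exact ⟨Finset.mem_univ _, (maj_map σ y a).2 hy.2⟩
    · intro y _ z _ h
      exact σ.injective h
    · intro y hy
      rw [Finset.mem_filter] at hy
      refine ⟨σ.symm y, Finset.mem_filter.2 ⟨Finset.mem_univ _, ?_⟩, σ.apply_symm_apply y⟩
      rw [← maj_map σ, σ.apply_symm_apply]
      exact hy.2
  rcases maj_or hG hx with h | h
  · have := key _ _ h
    rw [key2] at this
    exact absurd this (lt_irrefl _)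
  · have := key _ _ h
    rw [key2] at this
    exact absurd this (lt_irrefl _)

end Pool.Agent.Helper51.GPC
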