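import Pool.Agent.Helper51.GPC.GoodPair

/-!
# The golden partition conjecture for N-free posets
-/

namespace Pool.Agent.Helper51.GPC

variable {α : Type*} [Fintype α] [PartialOrder α]

/-- In an N-free poset, two elements with a common upper cover have the same upper bounds. -/
theorem same_up_of_nfree
    (hN : ∀ a b x y : α, a ⋖ x → b ⋖ x → b ⋖ y → a ≤ y ∨ y ≤ a) {a b x : α}
    (ha : a ⋖ x) (hb : b ⋖ x) : ∀ e, b < e → a < e := by
  intro e he
  obtain ⟨y, hby, hye⟩ := exists_covBy_le_of_lt he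
  rcases hN a b x y ha hb hby with h | h
  · refine lt_of_lt_of_le (lt_of_le_of_ne h ?_) hye
    rintro rfl
    exact hb.2 hby.lt ha.lt
  · exact absurd (lt_of_lt_of_le hby.lt h) (fun h' => hb.2 h' ha.lt)

/-- Every finite N-free poset that is not a chain satisfies the golden partition conjecture. -/
theorem golden_of_nfree
    (hN : ∀ a b x y : α, a ⋖ x → b ⋖ x → b ⋖ y → a ≤ y ∨ y ≤ a)
    (hx : ∃ x y : α, ¬ x ≤ y ∧ ¬ y ≤ x) : Golden α := by
  classical
  by_cases hB : ∃ y : α, ∃ p q : α, p < y ∧ q < y ∧ ¬ p ≤ q ∧ ¬ q ≤ p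
  · obtain ⟨y, hy⟩ := Set.Finite.exists_minimal
      (s := {y : α | ∃ p q : α, p < y ∧ q < y ∧ ¬ p ≤ q ∧ ¬ q ≤ p}) (Set.toFinite _) hB
    obtain ⟨⟨p, q, hp, hq, hpq, hqp⟩, hmin⟩ := hy
    have hch : ∀ z, z < y → ∀ e e', e < z → e' < z → e ≤ e' ∨ e' ≤ e := by
      intro z hz e e' he he'
      by_contra h
      rw [not_or] at h
      exact absurd (@hmin z ⟨e, e', he, he', h.1, h.2⟩ hz.le) (not_le_of_gt hz)
    obtain ⟨a, hpa, hay⟩ := exists_le_covBy_of_lt hp
    have hqa : ∃ b, b ≠ a ∧ b ⋖ y := by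
      by_contra hno
      push Not at hno
      obtain ⟨b, hqb, hby⟩ := exists_le_covBy_of_lt hq
      have hb : b = a := by
        by_contra h
        exact hno b h hby
      subst hb
      rcases hpa.lt_or_eq with h1 | h1
      · rcases hqb.lt_or_eq with h2 | h2
        · rcases hch b hby.lt p q h1 h2 with h | h
          · exact hpq h
          · exact hqp h
        · exact hpq (h2 ▸ hpa)
      · exact hqp (h1 ▸ hqb)
    obtain ⟨b, hba, hby⟩ := hqa
    refine golden_of_same_up hba.symm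
      (fun e => ⟨same_up_of_nfree hN hby hay e, same_up_of_nfree hN hay hby e⟩)
      (fun e e' h1 _ h2 _ => hch b hby.lt e e' h1 h2)
      (fun e e' h1 _ h2 _ => hch a hay.lt e e' h1 h2)
  · push Not at hB
    obtain ⟨x, y, hxy, hyx⟩ := hx
    obtain ⟨a, hxa, ha⟩ := Finite.exists_le_maximal (p := fun _ : α => True) (a := x) trivial
    obtain ⟨b, hyb, hb⟩ := Finite.exists_le_maximal (p := fun _ : α => True) (a := y) trivial
    have hmaxa : ∀ e, ¬ a < e := fun e he => absurd (ha.2 trivial he.le) (not_le_of_gt he)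
    have hmaxb : ∀ e, ¬ b < e := fun e he => absurd (hb.2 trivial he.le) (not_le_of_gt he)
    have hne : a ≠ b := by
      rintro rfl
      rcases hxa.lt_or_eq with h1 | h1
      · rcases hyb.lt_or_eq with h2 | h2
        · exact hyx (hB a x y h1 h2 hxy)
        · exact hxy (h2 ▸ hxa)
      · exact hyx (h1 ▸ hyb)
    refine golden_of_same_up hne
      (fun e => ⟨fun h => absurd h (hmaxa e), fun h => absurd h (hmaxb e)⟩) ?_ ?_
    · intro e e' h1 _ h2 _
      by_contra h
      rw [not_or] at h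
      exact h.2 (hB b e e' h1 h2 h.1)
    · intro e e' h1 _ h2 _
      by_contra h
      rw [not_or] at h
      exact h.2 (hB a e e' h1 h2 h.1)

end Pool.Agent.Helper51.GPC
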